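import Pool.Agent.H724.NonMSlalom

/-!
Linear algebra: two almost disjoint members of a family and the graphs of linear maps
between them.
-/

set_option autoImplicit false

namespace Pool.Agent.H724.NonM

open Set Cardinal

universe u v

variable {F : Type u} {E : Type v} [Field F] [AddCommGroup E] [Module F E]

lemma rank_le_map_add (A B : Submodule F E) :
    Module.rank F B ≤ Module.rank F (B.map A.mkQ) + Module.rank F ↥(A ⊓ B) := by
  have h := LinearMap.rank_range_add_rank_ker (A.mkQ.comp B.subtype)
  have h1 : LinearMap.range (A.mkQ.comp B.subtype) = B.map A.mkQ := by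
    rw [LinearMap.range_comp, Submodule.range_subtype]
  have h2 : Module.rank F (LinearMap.ker (A.mkQ.comp B.subtype)) ≤ Module.rank F ↥(A ⊓ B) := by
    let φ : LinearMap.ker (A.mkQ.comp B.subtype) →ₗ[F] ↥(A ⊓ B) :=
      LinearMap.codRestrict (A ⊓ B) (B.subtype.comp (Submodule.subtype _)) (by
        rintro ⟨x, hx⟩
        refine ⟨?_, x.2⟩
        simpa using hx)
    refine LinearMap.rank_le_of_injective φ ?_
    intro x y hxy
    have := congrArg Subtype.val hxy
    simp only [φ, LinearMap.codRestrict_apply, LinearMap.comp_apply, Submodule.subtype_apply] at this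
    exact Subtype.ext (Subtype.ext this)
  rw [← h, ← h1]
  exact add_le_add le_rfl h2

lemma rank_sup_inf_le (A U A1 : Submodule F E) :
    Module.rank F ↥((A ⊔ U) ⊓ A1) ≤ Module.rank F ↥(A ⊓ A1) + Module.rank F U := by
  refine le_trans (rank_le_map_add A ((A ⊔ U) ⊓ A1)) ?_
  rw [add_comm]
  refine add_le_add (Submodule.rank_mono ?_) ?_
  · exact inf_le_inf_left _ inf_le_right
  · refine le_trans (Submodule.rank_mono ?_) (rank_map_le A.mkQ U)
    refine le_trans (Submodule.map_mono inf_le_left) ?_
    rw [Submodule.map_sup, Submodule.mkQ_map_self, bot_sup_eq]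

lemma exists_seq_of_not_finite {V : Type v} [AddCommGroup V] [Module F V]
    (h : ¬ Module.Finite F V) : ∃ a : ℕ → V, LinearIndependent F a := by
  let b := Module.Basis.ofVectorSpace F V
  have : Infinite (Module.Basis.ofVectorSpaceIndex F V) := by
    by_contra hfin
    rw [not_infinite_iff_finite] at hfin
    exact h (Module.Finite.of_basis b)
  exact ⟨b ∘ Infinite.natEmbedding _,
    b.linearIndependent.comp _ (Infinite.natEmbedding _).injective⟩

lemma exists_seq_mod {A0 A1 : Submodule F E} (h0 : ¬ Module.Finite F A0)
    (h01 : Module.Finite F ↥(A0 ⊓ A1)) : ∃ a : ℕ → E, LinearIndependent F (A1.mkQ ∘ a) := by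
  have h : ¬ Module.Finite F (E ⧸ A1) := by
    intro hfin
    apply h0
    rw [← Module.rank_lt_aleph0_iff]
    refine lt_of_le_of_lt (rank_le_map_add A1 A0) (add_lt_aleph0 ?_ ?_)
    · rw [Module.rank_lt_aleph0_iff]; infer_instance
    · rw [inf_comm, Module.rank_lt_aleph0_iff]; exact h01
  obtain ⟨a, ha⟩ := exists_seq_of_not_finite h
  refine ⟨fun n => Function.surjInv A1.mkQ_surjective (a n), ?_⟩
  have : A1.mkQ ∘ (fun n => Function.surjInv A1.mkQ_surjective (a n)) = a := by
    funext n
    exact Function.surjInv_eq A1.mkQ_surjective (a n)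
  rw [this]
  exact ha

/-- Few members of a linearly independent sequence of `A1` lie in a given translate of
`A ⊔ U`. -/
lemma guess_bound {A A1 : Submodule F E} (hfin : Module.Finite F ↥(A ⊓ A1)) (v : ℕ → E)
    (hv : LinearIndependent F v) (hvA : ∀ n, v n ∈ A1) (a : E) (b : ℕ → E) (k : ℕ) :
    {n | a + v n ∈ A ⊔ Submodule.span F (b '' Iio k)}.Finite ∧
      {n | a + v n ∈ A ⊔ Submodule.span F (b '' Iio k)}.ncard ≤
        (Module.finrank F ↥(A ⊓ A1) + 1) + k := by
  set U := Submodule.span F (b '' Iio k) with hU
  set W := (A ⊔ U) ⊓ A1 with hW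
  have hUr : Module.rank F U ≤ k := by
    classical
    have hUe : b '' Iio k = ((Finset.range k).image b : Finset E) := by
      simp [Finset.coe_image, Finset.coe_range]
    rw [hU, hUe]
    refine le_trans (rank_span_finset_le _) ?_
    have := Finset.card_image_le (s := Finset.range k) (f := b)
    rw [Finset.card_range] at this
    exact_mod_cast this
  have hWr : Module.rank F W ≤ ((Module.finrank F ↥(A ⊓ A1) + k : ℕ) : Cardinal) := by
    refine le_trans (rank_sup_inf_le A U A1) ?_
    rw [Nat.cast_add, Module.finrank_eq_rank]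
    exact add_le_add le_rfl hUr
  have key : ∀ T : Finset ℕ, (T : Set ℕ) ⊆ {n | a + v n ∈ A ⊔ U} →
      T.card ≤ (Module.finrank F ↥(A ⊓ A1) + 1) + k := by
    intro T hT
    rcases T.eq_empty_or_nonempty with rfl | ⟨n0, hn0⟩
    · simp
    have hsub : Submodule.span F (v '' (T : Set ℕ)) ≤ W ⊔ Submodule.span F {v n0} := by
      rw [Submodule.span_le]
      rintro _ ⟨n, hn, rfl⟩
      have h1 : v n - v n0 ∈ W := by
        refine ⟨?_, A1.sub_mem (hvA n) (hvA n0)⟩
        have := (A ⊔ U).sub_mem (hT hn) (hT hn0)
        simpa using this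
      have h2 : v n0 ∈ Submodule.span F {v n0} := Submodule.mem_span_singleton_self _
      have := Submodule.add_mem_sup h1 h2
      simpa using this
    have hr : Module.rank F (Submodule.span F (v '' (T : Set ℕ))) = T.card := by
      have hw : LinearIndependent F (fun n : T => v n) :=
        hv.comp (fun n : T => (n : ℕ)) Subtype.val_injective
      have hwr : range (fun n : T => v n) = v '' (T : Set ℕ) := by
        ext x; simp
      rw [← hwr]
      have hfr := finrank_span_eq_card hw
      rw [Fintype.card_coe] at hfr
      have : Module.Finite F (Submodule.span F (range fun n : T => v n)) :=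
        Module.Finite.span_of_finite F (Set.finite_range _)
      rw [← Module.finrank_eq_rank, hfr]
    have h3 := Submodule.rank_mono hsub
    rw [hr] at h3
    have h4 := le_trans h3 (Submodule.rank_add_le_rank_add_rank _ _)
    have h5 : Module.rank F (Submodule.span F {v n0}) ≤ 1 := by
      refine le_trans (rank_span_le _) ?_
      simp
    have h6 := le_trans h4 (add_le_add hWr h5)
    have h7 : (T.card : Cardinal.{v}) ≤ ((Module.finrank F ↥(A ⊓ A1) + k + 1 : ℕ) : Cardinal.{v}) := by
      push_cast
      exact_mod_cast h6
    have h8 := Nat.cast_le.mp h7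
    omega
  have hfin' : {n | a + v n ∈ A ⊔ U}.Finite := by
    by_contra hinf
    obtain ⟨T, hT, hTc⟩ := Set.Infinite.exists_subset_card_eq hinf
      ((Module.finrank F ↥(A ⊓ A1) + 1) + k + 1)
    have := key T hT
    omega
  refine ⟨hfin', ?_⟩
  rw [Set.ncard_eq_toFinset_card _ hfin']
  exact key _ (by simp)

/-- If a subspace meets the span of a sequence in an infinite-dimensional space, then it is
predicted infinitely often. -/
lemma infinite_guess {A : Submodule F E} {b : ℕ → E}
    (h : ¬ Module.Finite F ↥(A ⊓ Submodule.span F (range b))) :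
    {k | b k ∈ A ⊔ Submodule.span F (b '' Iio k)}.Infinite := by
  rw [Set.infinite_iff_exists_gt]
  intro N
  by_contra hcon
  push Not at hcon
  apply h
  have hle : A ⊓ Submodule.span F (range b) ≤ Submodule.span F (b '' Iio (N + 1)) := by
    have key : ∀ m, ∀ w ∈ A, w ∈ Submodule.span F (b '' Iio (N + 1 + m)) →
        w ∈ Submodule.span F (b '' Iio (N + 1)) := by
      intro m
      induction m with
      | zero => intro w _ hw; simpa using hw
      | succ m ih =>
        intro w hwA hw
        have hins : b '' Iio (N + 1 + (m + 1)) = insert (b (N + 1 + m)) (b '' Iio (N + 1 + m)) := by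
          rw [← image_insert_eq]
          congr 1
          ext i
          simp only [mem_Iio, mem_insert_iff]
          omega
        rw [hins, Submodule.mem_span_insert] at hw
        obtain ⟨c, z, hz, hwz⟩ := hw
        by_cases hc : c = 0
        · rw [hc, zero_smul, zero_add] at hwz
          exact ih w hwA (hwz ▸ hz)
        · exfalso
          have hmem : b (N + 1 + m) ∈ A ⊔ Submodule.span F (b '' Iio (N + 1 + m)) := by
            have h1 : b (N + 1 + m) = c⁻¹ • w + (-(c⁻¹ • z)) := by
              rw [hwz, smul_add, smul_smul, inv_mul_cancel₀ hc, one_smul]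
              abel
            rw [h1]
            exact Submodule.add_mem_sup (A.smul_mem _ hwA)
              (Submodule.neg_mem _ (Submodule.smul_mem _ _ hz))
          have := hcon (N + 1 + m) hmem
          omega
    rintro w ⟨hwA, hw⟩
    have hU : range b = ⋃ m, b '' Iio (N + 1 + m) := by
      ext x
      simp only [mem_range, mem_iUnion, mem_image, mem_Iio]
      constructor
      · rintro ⟨i, rfl⟩
        exact ⟨i, i, by omega, rfl⟩
      · rintro ⟨_, i, _, rfl⟩
        exact ⟨i, rfl⟩
    have hdir : Directed (· ≤ ·) (fun m => Submodule.span F (b '' Iio (N + 1 + m))) := by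
      refine Monotone.directed_le fun i j hij => Submodule.span_mono (image_mono ?_)
      intro x hx
      simp only [mem_Iio] at hx ⊢
      omega
    rw [hU, Submodule.span_iUnion] at hw
    have := (Submodule.mem_iSup_of_directed _ hdir).mp hw
    obtain ⟨m, hm⟩ := this
    exact key m w hwA hm
  have hfin : Module.Finite F ↥(Submodule.span F (b '' Iio (N + 1))) :=
    Module.Finite.span_of_finite F ((Set.finite_Iio _).image _)
  exact Submodule.finiteDimensional_of_le hle

end Pool.Agent.H724.NonM
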