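import Mathlib

/-!
Combinatorial part: infinitely often equal families give nonmeager sets of reals.
-/

set_option autoImplicit false

namespace Pool.Agent.H724.NonM

open Set Real

/-- One extension step: inside each binary cylinder there is a smaller one whose image under
`ofDigits` lies in a given dense open set. -/
lemma dense_step {D : Set ℝ} (hD : IsOpen D) (hd : Dense D) (x : ℕ → Fin 2) (n : ℕ) :
    ∃ w : ℕ → Fin 2, (∀ i < n, w i = x i) ∧
      ∃ m, n ≤ m ∧ ∀ z : ℕ → Fin 2, (∀ i < m, z i = w i) → ofDigits z ∈ D := by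
  set s : ℝ := ∑ i ∈ Finset.range n, ofDigitsTerm x i with hs
  have hpos : (0 : ℝ) < ((2 : ℝ) ^ n)⁻¹ := by positivity
  obtain ⟨d, hdD, hd1, hd2⟩ := (hd.inter_open_nonempty (Ioo s (s + ((2 : ℝ) ^ n)⁻¹)) isOpen_Ioo
    ⟨s + ((2 : ℝ) ^ n)⁻¹ / 2, by constructor <;> linarith⟩) |>.imp
      (fun d hd => (⟨hd.2, hd.1⟩ : d ∈ D ∧ d ∈ Ioo s (s + ((2 : ℝ) ^ n)⁻¹)))
  set u : ℝ := (d - s) * (2 : ℝ) ^ n with hu
  have h2n : (0 : ℝ) < (2 : ℝ) ^ n := by positivity
  have hu0 : u ∈ Ico (0 : ℝ) 1 := by
    constructor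
    · have : 0 ≤ d - s := by linarith
      positivity
    · have h3 : d - s < ((2 : ℝ) ^ n)⁻¹ := by linarith
      calc u < ((2 : ℝ) ^ n)⁻¹ * (2 : ℝ) ^ n := by
            exact mul_lt_mul_of_pos_right h3 h2n
        _ = 1 := inv_mul_cancel₀ h2n.ne'
  set y : ℕ → Fin 2 := digits u 2 with hy
  have hyu : ofDigits y = u := ofDigits_digits (by norm_num) hu0
  set w : ℕ → Fin 2 := fun i => if i < n then x i else y (i - n) with hw
  have hwd : ofDigits w = d := by
    rw [ofDigits_eq_sum_add_ofDigits w n]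
    have h1 : ∑ i ∈ Finset.range n, ofDigitsTerm w i = s := by
      refine Finset.sum_congr rfl fun i hi => ?_
      simp only [ofDigitsTerm, hw, if_pos (Finset.mem_range.mp hi)]
    have h2 : (fun i => w (i + n)) = y := by
      funext i
      simp [hw]
    rw [h1, h2, hyu, hu]
    push_cast
    field_simp
    ring
  obtain ⟨ε, hε, hball⟩ := Metric.isOpen_iff.mp hD d hdD
  obtain ⟨m0, hm0⟩ := exists_pow_lt_of_lt_one hε (by norm_num : (1 / 2 : ℝ) < 1)
  refine ⟨w, fun i hi => by simp [hw, hi], max n m0, le_max_left _ _, fun z hz => hball ?_⟩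
  rw [Metric.mem_ball, Real.dist_eq, ← hwd]
  refine lt_of_le_of_lt (abs_ofDigits_sub_ofDigits_le (n := max n m0) hz) ?_
  refine lt_of_le_of_lt ?_ hm0
  rw [one_div, inv_pow]
  push_cast
  exact inv_anti₀ (by positivity) (pow_le_pow_right₀ (by norm_num) (le_max_right _ _))

/-- Matching a suitable pattern on a block forces membership in a dense open set. -/
lemma exists_pattern {D : Set ℝ} (hD : IsOpen D) (hd : Dense D) (m : ℕ) :
    ∃ l : ℕ, m < l ∧ ∃ y : ℕ → Fin 2, ∀ x : ℕ → Fin 2,
      (∀ i, m ≤ i → i < l → x i = y i) → ofDigits x ∈ D := by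
  have key : ∀ T : Finset (Fin m → Fin 2), ∃ l : ℕ, m < l ∧ ∃ y : ℕ → Fin 2, ∀ x : ℕ → Fin 2,
      (fun i : Fin m => x i) ∈ T → (∀ i, m ≤ i → i < l → x i = y i) → ofDigits x ∈ D := by
    intro T
    induction T using Finset.induction_on with
    | empty => exact ⟨m + 1, Nat.lt_succ_self m, fun _ => 0, fun x hx => by simp at hx⟩
    | insert σ T hσ ih =>
      obtain ⟨l, hl, y, hy⟩ := ih
      obtain ⟨w, hw, m', hm', hw'⟩ := dense_step hD hd
        (fun i => if h : i < m then σ ⟨i, h⟩ else y i) l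
      refine ⟨m', lt_of_lt_of_le hl hm', w, fun x hx hxw => ?_⟩
      rw [Finset.mem_insert] at hx
      rcases hx with hx | hx
      · refine hw' x fun i hi => ?_
        by_cases him : i < m
        · rw [hw i (lt_trans him hl), dif_pos him, ← hx]
        · exact hxw i (not_lt.mp him) hi
      · refine hy x hx fun i hi hil => ?_
        rw [hxw i hi (lt_of_lt_of_le hil hm'), hw i hil, dif_neg (not_lt.mpr hi)]
  obtain ⟨l, hl, y, hy⟩ := key Finset.univ
  exact ⟨l, hl, y, fun x hx => hy x (Finset.mem_univ _) hx⟩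

/-- A meagre set of reals misses the intersection of a decreasing sequence of dense open sets. -/
lemma exists_antitone_of_isMeagre {X : Set ℝ} (hX : IsMeagre X) :
    ∃ D : ℕ → Set ℝ, Antitone D ∧ (∀ n, IsOpen (D n)) ∧ (∀ n, Dense (D n)) ∧
      ∀ x, (∀ n, x ∈ D n) → x ∉ X := by
  rw [IsMeagre, mem_residual_iff] at hX
  obtain ⟨S, hSo, hSd, hSc, hSX⟩ := hX
  obtain ⟨U, hU⟩ := (hSc.insert univ).exists_eq_range (insert_nonempty _ _)
  have hUo : ∀ n, IsOpen (U n) := by
    intro n
    have : U n ∈ insert univ S := hU ▸ mem_range_self n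
    rcases this with h | h
    · rw [h]; exact isOpen_univ
    · exact hSo _ h
  have hUd : ∀ n, Dense (U n) := by
    intro n
    have : U n ∈ insert univ S := hU ▸ mem_range_self n
    rcases this with h | h
    · rw [h]; exact dense_univ
    · exact hSd _ h
  let D : ℕ → Set ℝ := fun n => Nat.rec (U 0) (fun k V => V ∩ U (k + 1)) n
  have hDs : ∀ n, D (n + 1) = D n ∩ U (n + 1) := fun n => rfl
  have hDo : ∀ n, IsOpen (D n) := by
    intro n
    induction n with
    | zero => exact hUo 0
    | succ k ih => rw [hDs]; exact ih.inter (hUo _)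
  refine ⟨D, ?_, hDo, ?_, ?_⟩
  · refine antitone_nat_of_succ_le fun n => ?_
    rw [hDs]; exact inter_subset_left
  · intro n
    induction n with
    | zero => exact hUd 0
    | succ k ih => rw [hDs]; exact ih.inter_of_isOpen_left (hUd _) (hDo k)
  · intro x hx hxX
    have : x ∈ ⋂₀ S := by
      intro s hs
      have : s ∈ range U := hU ▸ mem_insert_of_mem _ hs
      obtain ⟨n, rfl⟩ := this
      have h := hx n
      cases n with
      | zero => exact h
      | succ k => rw [hDs] at h; exact h.2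
    exact hSX this hxX

/-- A monotone function above `f`. -/
def rr (f : ℕ → ℕ) (m : ℕ) : ℕ := (∑ i ∈ Finset.range (m + 1), f i) + m + 1

lemma le_rr (f : ℕ → ℕ) (m : ℕ) : f m ≤ rr f m := by
  unfold rr
  have := Finset.single_le_sum (f := f) (fun i _ => Nat.zero_le _) (Finset.self_mem_range_succ m)
  omega

lemma lt_rr (f : ℕ → ℕ) (m : ℕ) : m < rr f m := by
  unfold rr; omega

lemma rr_mono (f : ℕ → ℕ) : Monotone (rr f) := by
  intro a b hab
  unfold rr
  have := Finset.sum_le_sum_of_subset (f := f)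
    (Finset.range_subset_range.mpr (Nat.succ_le_succ hab))
  simp only [Nat.succ_eq_add_one] at this
  omega

/-- The interval partition generated by `f`. -/
def jj (f : ℕ → ℕ) : ℕ → ℕ
  | 0 => 0
  | k + 1 => rr f (jj f k)

lemma jj_strictMono (f : ℕ → ℕ) : StrictMono (jj f) :=
  strictMono_nat_of_lt_succ fun k => lt_rr f (jj f k)

/-- The index of the block containing `i`. -/
def blk (f : ℕ → ℕ) (i : ℕ) : ℕ := Nat.findGreatest (fun k => jj f k ≤ i) i

lemma jj_blk_le (f : ℕ → ℕ) (i : ℕ) : jj f (blk f i) ≤ i := by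
  have : (fun k => jj f k ≤ i) (Nat.findGreatest (fun k => jj f k ≤ i) i) :=
    Nat.findGreatest_spec (P := fun k => jj f k ≤ i) (Nat.zero_le i) (by simp [jj])
  exact this

lemma lt_jj_blk (f : ℕ → ℕ) (i : ℕ) : i < jj f (blk f i + 1) := by
  by_contra h
  rw [not_lt] at h
  have h1 : blk f i + 1 ≤ i := le_trans ((jj_strictMono f).id_le _) h
  have h2 := Nat.le_findGreatest (P := fun k => jj f k ≤ i) h1 h
  unfold blk at h2
  omega

lemma blk_eq (f : ℕ → ℕ) {i k : ℕ} (h1 : jj f k ≤ i) (h2 : i < jj f (k + 1)) : blk f i = k := by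
  have h3 := jj_blk_le f i
  have h4 := lt_jj_blk f i
  have h5 : k < blk f i + 1 := (jj_strictMono f).lt_iff_lt.mp (lt_of_le_of_lt h1 h4)
  have h6 : blk f i < k + 1 := (jj_strictMono f).lt_iff_lt.mp (lt_of_le_of_lt h3 h2)
  omega

/-- Decoding of a natural number as a list of labelled binary strings. -/
def dec (n : ℕ) : List (ℕ × List (Fin 2)) :=
  (Encodable.decode (α := List (ℕ × List (Fin 2))) n).getD []

lemma dec_encode (l : List (ℕ × List (Fin 2))) : dec (Encodable.encode l) = l := by
  simp [dec]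

/-- Greedy selection of labelled strings with pairwise different labels. -/
def sel (g : ℕ → ℕ) : ℕ → List (ℕ × List (Fin 2))
  | 0 => []
  | t + 1 => ((dec (g t)).find? (fun e => decide (e.1 ∉ (sel g t).map Prod.fst))).toList ++ sel g t

lemma sel_length (g : ℕ → ℕ) (t : ℕ) : (sel g t).length ≤ t := by
  induction t with
  | zero => simp [sel]
  | succ t ih =>
    have : ((dec (g t)).find? (fun e => decide (e.1 ∉ (sel g t).map Prod.fst))).toList.length ≤ 1 := by
      rcases ((dec (g t)).find? (fun e => decide (e.1 ∉ (sel g t).map Prod.fst))) with _ | e <;> simp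
    simp only [sel, List.length_append]
    omega

lemma sel_subset (g : ℕ → ℕ) {s t : ℕ} (h : s ≤ t) : sel g s ⊆ sel g t := by
  induction h with
  | refl => exact List.Subset.refl _
  | step h ih =>
    refine List.Subset.trans ih ?_
    simp only [sel]
    exact List.subset_append_right _ _

lemma sel_unique_aux (g : ℕ → ℕ) (t : ℕ) :
    ∀ k s s', (k, s) ∈ sel g t → (k, s') ∈ sel g t → s = s' := by
  induction t with
  | zero => intro k s s' h; simp [sel] at h
  | succ t ih =>
    intro k s s' h h'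
    simp only [sel, List.mem_append, Option.mem_toList] at h h'
    have hp : ∀ e : ℕ × List (Fin 2),
        (dec (g t)).find? (fun e => decide (e.1 ∉ (sel g t).map Prod.fst)) = some e →
          e.1 ∉ (sel g t).map Prod.fst := by
      intro e he
      have := List.find?_some he
      simpa using this
    rcases h with h | h <;> rcases h' with h' | h'
    · have := h.symm.trans h'
      simp at this
      exact this
    · exact absurd (List.mem_map_of_mem (f := Prod.fst) h') (hp (k, s) h)
    · exact absurd (List.mem_map_of_mem (f := Prod.fst) h) (hp (k, s') h')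
    · exact ih k s s' h h'

lemma sel_unique (g : ℕ → ℕ) {t t' k : ℕ} {s s' : List (Fin 2)} (h : (k, s) ∈ sel g t)
    (h' : (k, s') ∈ sel g t') : s = s' :=
  sel_unique_aux g (max t t') k s s' (sel_subset g (le_max_left _ _) h)
    (sel_subset g (le_max_right _ _) h')

open Classical in
/-- The point of Cantor space determined by a partition and a selection. -/
noncomputable def xx (f g : ℕ → ℕ) (i : ℕ) : Fin 2 :=
  if h : ∃ s : List (Fin 2), ∃ t : ℕ, (blk f i, s) ∈ sel g t then
    h.choose.getD (i - jj f (blk f i)) 0 else 0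

lemma xx_eq (f g : ℕ → ℕ) {i k t : ℕ} {s : List (Fin 2)} (h1 : jj f k ≤ i)
    (h2 : i < jj f (k + 1)) (h : (k, s) ∈ sel g t) : xx f g i = s.getD (i - jj f k) 0 := by
  have hb := blk_eq f h1 h2
  have hex : ∃ s : List (Fin 2), ∃ t : ℕ, (blk f i, s) ∈ sel g t := ⟨s, t, hb ▸ h⟩
  unfold xx
  rw [dif_pos hex]
  obtain ⟨t', ht'⟩ := hex.choose_spec
  have hs : hex.choose = s := sel_unique g ht' (hb.symm ▸ h)
  rw [hs, hb]

/-- Main step. -/
lemma exists_mem {P : Type*} (c : P → ℕ → ℕ)
    (hc : ∀ G : ℕ → ℕ, ∃ p, {t | c p t = G t}.Infinite) (D : ℕ → Set ℝ) (hD : Antitone D)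
    (hDo : ∀ n, IsOpen (D n)) (hDd : ∀ n, Dense (D n)) :
    ∃ p q, ∀ n, ofDigits (xx (c p) (c q)) ∈ D n := by
  choose l hl y hy using fun m => exists_pattern (hDo m) (hDd m) m
  -- the monotone length bound
  have hll : ∀ m, l m ≤ rr l m := le_rr l
  obtain ⟨p, hp⟩ := hc (fun m => rr l (rr l m))
  set j := jj (c p) with hj
  let K : Set ℕ := {k | ∃ m, j k ≤ m ∧ rr l m ≤ j (k + 1)}
  have hK : K.Infinite := by
    rw [Set.infinite_iff_exists_gt]
    intro N
    obtain ⟨m, hm, hmN⟩ := (Set.infinite_iff_exists_gt.mp hp) (j (N + 1))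
    have hk1 := jj_blk_le (c p) m
    have hk2 := lt_jj_blk (c p) m
    set k := blk (c p) m with hk
    have hNk : N < k := by
      have : N + 1 < k + 1 := (jj_strictMono (c p)).lt_iff_lt.mp (lt_trans hmN hk2)
      omega
    by_cases h : rr l m ≤ j (k + 1)
    · exact ⟨k, ⟨m, hk1, h⟩, hNk⟩
    · refine ⟨k + 1, ⟨j (k + 1), le_refl _, ?_⟩, by omega⟩
      calc rr l (j (k + 1)) ≤ rr l (rr l m) := rr_mono l (le_of_lt (not_le.mp h))
        _ = c p m := hm.symm
        _ ≤ rr (c p) m := le_rr _ _
        _ ≤ rr (c p) (j (k + 1)) := rr_mono _ hk2.le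
        _ = j (k + 1 + 1) := rfl
  have hKm : ∀ k ∈ K, ∃ m, j k ≤ m ∧ rr l m ≤ j (k + 1) := fun k hk => hk
  let mm : ℕ → ℕ := fun k => open Classical in if h : ∃ m, j k ≤ m ∧ rr l m ≤ j (k + 1) then h.choose else 0
  have hmm : ∀ k ∈ K, j k ≤ mm k ∧ rr l (mm k) ≤ j (k + 1) := by
    intro k hk
    have h := hKm k hk
    simp only [mm, dif_pos h]
    exact h.choose_spec
  let str : ℕ → List (Fin 2) := fun k =>
    (List.range (j (k + 1) - j k)).map (fun i => y (mm k) (j k + i))
  let κ : ℕ → ℕ := Nat.nth (· ∈ K)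
  have hκK : ∀ i, κ i ∈ K := fun i => Nat.nth_mem_of_infinite hK i
  have hκm : StrictMono κ := Nat.nth_strictMono hK
  let G : ℕ → ℕ := fun t =>
    Encodable.encode ((List.range (t + 1)).map (fun i => (κ (t + i), str (κ (t + i)))))
  obtain ⟨q, hq⟩ := hc G
  refine ⟨p, q, fun n => ?_⟩
  obtain ⟨t, ht, htn⟩ := (Set.infinite_iff_exists_gt.mp hq) n
  -- the selection at stage `t`
  have hfind : ((dec (c q t)).find? (fun e => decide (e.1 ∉ (sel (c q) t).map Prod.fst))).isSome := by
    rw [List.find?_isSome]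
    by_contra hcon
    push Not at hcon
    have hdec : dec (c q t) = (List.range (t + 1)).map (fun i => (κ (t + i), str (κ (t + i)))) := by
      rw [show c q t = G t from ht, dec_encode]
    have hsub : ∀ i ∈ Finset.range (t + 1), κ (t + i) ∈ ((sel (c q) t).map Prod.fst).toFinset := by
      intro i hi
      rw [List.mem_toFinset]
      have h1 := hcon (κ (t + i), str (κ (t + i))) (by
        rw [hdec, List.mem_map]
        exact ⟨i, List.mem_range.mpr (Finset.mem_range.mp hi), rfl⟩)
      by_contra h2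
      exact h1 (by simpa using h2)
    have hcard := Finset.card_le_card_of_injOn (fun i => κ (t + i)) hsub (by
      intro a _ b _ hab
      have := hκm.injective hab
      omega)
    have h3 := List.toFinset_card_le ((sel (c q) t).map Prod.fst)
    rw [List.length_map] at h3
    have h4 := sel_length (c q) t
    rw [Finset.card_range] at hcard
    omega
  obtain ⟨e, he⟩ := Option.isSome_iff_exists.mp hfind
  have hemem : e ∈ dec (c q t) := List.mem_of_find?_eq_some he
  rw [show c q t = G t from ht, dec_encode, List.mem_map] at hemem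
  obtain ⟨i, hi, rfl⟩ := hemem
  set k := κ (t + i) with hk
  have hkK : k ∈ K := hκK _
  have hkn : n ≤ k := by
    have := hκm.id_le (t + i)
    simp only [id] at this
    omega
  have hsel : (k, str k) ∈ sel (c q) (t + 1) := by
    simp only [sel, he, List.mem_append, Option.mem_toList]
    exact Or.inl trivial
  obtain ⟨hm1, hm2⟩ := hmm k hkK
  have hmem : ofDigits (xx (c p) (c q)) ∈ D (mm k) := by
    refine hy (mm k) _ fun a ha1 ha2 => ?_
    have hb1 : jj (c p) k ≤ a := le_trans hm1 ha1
    have hb2 : a < jj (c p) (k + 1) := lt_of_lt_of_le ha2 (le_trans (hll _) hm2)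
    rw [xx_eq (c p) (c q) hb1 hb2 hsel]
    simp only [str]
    rw [List.getD_eq_getElem _ _ (by
      rw [List.length_map, List.length_range]
      have : j = jj (c p) := hj
      rw [this]
      omega)]
    rw [List.getElem_map, List.getElem_range]
    congr 1
    have : j = jj (c p) := hj
    rw [this]
    omega
  have hnm : n ≤ mm k := le_trans hkn (le_trans ((jj_strictMono (c p)).id_le k) hm1)
  exact hD hnm hmem

open Cardinal in
/-- An infinitely often equal family of size `κ` yields a nonmeager set of reals of size at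
most `κ`. -/
theorem exists_nonmeager {P : Type} [Infinite P] (c : P → ℕ → ℕ)
    (hc : ∀ G : ℕ → ℕ, ∃ p, {t | c p t = G t}.Infinite) :
    ∃ X : Set ℝ, ¬ IsMeagre X ∧ #X ≤ #P := by
  refine ⟨Set.range (fun pq : P × P => ofDigits (xx (c pq.1) (c pq.2))), ?_, ?_⟩
  · intro hm
    obtain ⟨D, hD, hDo, hDd, hDX⟩ := exists_antitone_of_isMeagre hm
    obtain ⟨p, q, hpq⟩ := exists_mem c hc D hD hDo hDd
    exact hDX _ hpq ⟨(p, q), rfl⟩
  · refine le_trans mk_range_le ?_
    rw [mk_prod, lift_id]
    exact (mul_eq_self (aleph0_le_mk P)).le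

end Pool.Agent.H724.NonM
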