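import Pool.Agent.H724.NonMReal

/-!
From adaptive slalom prediction to infinitely often equal families.
-/

set_option autoImplicit false

namespace Pool.Agent.H724.NonM

open Set

/-- The list of the first `k` values produced by the rule `G`. -/
def run (G : List ℕ → ℕ) : ℕ → List ℕ
  | 0 => []
  | k + 1 => run G k ++ [G (run G k)]

lemma run_length (G : List ℕ → ℕ) (k : ℕ) : (run G k).length = k := by
  induction k with
  | zero => rfl
  | succ k ih => simp [run, ih]

lemma run_getD (G : List ℕ → ℕ) {i k : ℕ} (h : i < k) :
    (run G k).getD i 0 = G (run G i) := by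
  induction k with
  | zero => omega
  | succ k ih =>
    rcases Nat.lt_succ_iff_lt_or_eq.mp h with h1 | h1
    · rw [run, List.getD_append _ _ _ _ (by rw [run_length]; exact h1), ih h1]
    · subst h1
      rw [run, List.getD_append_right _ _ _ _ (by rw [run_length])]
      simp [run_length]

/-- A coding of pairs (finite sequence, number) by natural numbers. -/
def code (σ : List ℕ) (c : ℕ) : ℕ := Encodable.encode (σ, c)

lemma code_inj {σ τ : List ℕ} {c d : ℕ} (h : code σ c = code τ d) : σ = τ ∧ c = d := by
  have := Encodable.encode_injective h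
  exact Prod.ext_iff.mp this

open Classical in
/-- A family of predictors such that every function is, at infinitely many arguments `k`,
guessed by one of them with at most `d + k` guesses, where `d` depends only on the predictor,
gives rise to an infinitely often equal family indexed by the same set. -/
theorem exists_ioe {P : Type*} (S : P → (ℕ → ℕ) → ℕ → Set ℕ)
    (h1 : ∀ p g g' k, (∀ i < k, g i = g' i) → S p g k = S p g' k)
    (h2 : ∀ p, ∃ d : ℕ, ∀ g k, (S p g k).Finite ∧ (S p g k).ncard ≤ d + k)
    (h3 : ∀ g, ∃ p, {k | g k ∈ S p g k}.Infinite) :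
    ∃ c : P → ℕ → ℕ, ∀ G : ℕ → ℕ, ∃ p, {t | c p t = G t}.Infinite := by
  choose d hfin hcard using h2
  let S' : P → List ℕ → Set ℕ := fun p σ => S p (fun j => σ.getD j 0) σ.length
  have hS'fin : ∀ p σ, (S' p σ).Finite := fun p σ => hfin p _ _
  let L : P → List ℕ → List ℕ := fun p σ => (hS'fin p σ).toFinset.toList
  have hL : ∀ p σ n, n ∈ L p σ ↔ n ∈ S' p σ := by
    intro p σ n
    simp only [L, Finset.mem_toList, Set.Finite.mem_toFinset]
  have hLlen : ∀ p σ, (L p σ).length ≤ d p + σ.length := by
    intro p σ
    simp only [L, Finset.length_toList]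
    rw [← Set.ncard_eq_toFinset_card _ (hS'fin p σ)]
    exact hcard p _ _
  let dl : ℕ → List ℕ := fun n => (Encodable.decode (α := List ℕ) n).getD []
  have hdl : ∀ l : List ℕ, dl (Encodable.encode l) = l := by
    intro l; simp [dl]
  let dp : ℕ → List ℕ × ℕ := fun n => (Encodable.decode (α := List ℕ × ℕ) n).getD ([], 0)
  have hdp : ∀ σ c, dp (code σ c) = (σ, c) := by
    intro σ c; simp [dp, code]
  refine ⟨fun p t => (dl ((L p (dp t).1).getD (dp t).2 0)).getD (dp t).2 0, fun G => ?_⟩
  let G' : List ℕ → ℕ := fun σ =>
    Encodable.encode ((List.range (2 * σ.length)).map (fun c => G (code σ c)))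
  obtain ⟨p, hp⟩ := h3 (fun k => G' (run G' k))
  refine ⟨p, ?_⟩
  -- the good arguments
  have key : ∀ k ∈ {k | (fun k => G' (run G' k)) k ∈ S p (fun k => G' (run G' k)) k} \ {k | k < d p},
      ∃ c, (dl ((L p (dp (code (run G' k) c)).1).getD (dp (code (run G' k) c)).2 0)).getD
        (dp (code (run G' k) c)).2 0 = G (code (run G' k) c) := by
    rintro k ⟨hk, hkd⟩
    simp only [mem_ofPred_eq, not_lt] at hk hkd
    have hmem : G' (run G' k) ∈ S' p (run G' k) := by
      have : S' p (run G' k) = S p (fun k => G' (run G' k)) k := by
        simp only [S', run_length]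
        exact h1 p _ _ k fun i hi => run_getD G' hi
      rw [this]
      exact hk
    rw [← hL] at hmem
    obtain ⟨c, hc, hc'⟩ := List.getElem_of_mem hmem
    refine ⟨c, ?_⟩
    rw [hdp]
    have hlen := hLlen p (run G' k)
    rw [run_length] at hlen
    simp only
    rw [List.getD_eq_getElem _ _ hc, hc']
    simp only [G', hdl]
    rw [List.getD_eq_getElem _ _ (by
      rw [List.length_map, List.length_range]
      have := run_length G' k
      simp only [G'] at this
      rw [this]
      omega)]
    rw [List.getElem_map, List.getElem_range]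
  choose! cc hcc using key
  have hinf : ({k | (fun k => G' (run G' k)) k ∈ S p (fun k => G' (run G' k)) k} \
      {k | k < d p}).Infinite := hp.sdiff (Set.finite_lt_nat _)
  refine Set.infinite_of_injOn_mapsTo (f := fun k => code (run G' k) (cc k)) ?_ ?_ hinf
  · intro a _ b _ hab
    have := (code_inj hab).1
    rw [← run_length G' a, this, run_length]
  · intro k hk
    exact hcc k hk

end Pool.Agent.H724.NonM
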