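import Pool.Agent.H724.PSNIter

set_option autoImplicit false

namespace H724.PSN

open Polynomial

section comm

variable {F : Type*} [Field F] [CharZero F] {A : Type*} [NonUnitalCommRing A] [Module F A]
  [IsScalarTower F A A] [SMulCommClass F A A]

theorem comm_case (h1 : 1 < Module.rank F A)
    (hP : ∀ B : NonUnitalSubalgebra F A, B ≠ ⊤ → Nilp B) :
    ∃ n : ℕ, ∀ a : A, ∀ l : List A, l.length = n → l.foldl (fun x y => x * y) a = 0 := by
  classical
  by_contra hA
  have hnilA := nil_of_psn h1 hP
  have hsq := sqAlg_eq_top hP hA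
  let U := Unitization F A
  let ι : A → U := Unitization.inr
  let m0 : Ideal U := RingHom.ker (Unitization.fstHom F A)
  have hm0 : ∀ x : U, x ∈ m0 ↔ ∃ a : A, ι a = x := by
    intro x
    constructor
    · intro hx
      have hx' : x.fst = 0 := hx
      exact ⟨x.snd, Unitization.ext (by simpa [ι] using hx'.symm) (by simp [ι])⟩
    · rintro ⟨a, rfl⟩
      rw [RingHom.mem_ker]
      exact Unitization.fst_inr F a
  have hmem : ∀ a : A, ι a ∈ m0 := fun a => (hm0 _).2 ⟨a, rfl⟩
  have hm00 : m0 * m0 = m0 := by
    apply le_antisymm Ideal.mul_le_right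
    intro x hx
    obtain ⟨a, rfl⟩ := (hm0 x).1 hx
    have ha : a ∈ sqAlg F A := by rw [hsq]; trivial
    have ha' : a ∈ Submodule.span F (Set.range fun p : A × A => p.1 * p.2) := ha
    clear ha hx
    induction ha' using Submodule.span_induction with
    | mem x hx =>
      obtain ⟨p, rfl⟩ := hx
      have : ι (p.1 * p.2) = ι p.1 * ι p.2 := Unitization.inr_mul F p.1 p.2
      rw [this]
      exact Ideal.mul_mem_mul (hmem _) (hmem _)
    | zero =>
      have : ι (0 : A) = 0 := Unitization.inr_zero F
      rw [this]; exact zero_mem _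
    | add x y _ _ hx hy =>
      have : ι (x + y) = ι x + ι y := Unitization.inr_add F x y
      rw [this]
      exact add_mem hx hy
    | smul c x _ hx =>
      have : ι (c • x) = algebraMap F U c * ι x := by
        rw [← Algebra.smul_def]
        exact Unitization.inr_smul F c x
      rw [this]
      exact Ideal.mul_mem_left _ _ hx
  let 𝔞 : Ideal U := Submodule.annihilator m0
  have h𝔞 : ∀ x : U, x ∈ 𝔞 ↔ ∀ y ∈ m0, x * y = 0 := fun x => Submodule.mem_annihilator
  let Q := U ⧸ 𝔞
  let π : U →+* Q := Ideal.Quotient.mk 𝔞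
  have hπs : Function.Surjective π := Ideal.Quotient.mk_surjective
  let m : Ideal Q := m0.map π
  have hm : ∀ x : Q, x ∈ m ↔ ∃ a : A, π (ι a) = x := by
    intro x
    rw [Ideal.mem_map_iff_of_surjective π hπs]
    constructor
    · rintro ⟨y, hy, rfl⟩
      obtain ⟨a, rfl⟩ := (hm0 y).1 hy
      exact ⟨a, rfl⟩
    · rintro ⟨a, rfl⟩
      exact ⟨ι a, hmem a, rfl⟩
  have hnil : ∀ x ∈ m, IsNilpotent x := by
    intro x hx
    obtain ⟨a, rfl⟩ := (hm x).1 hx
    exact (hnilA a).map π
  have hm2 : m * m = m := by
    change m0.map π * m0.map π = m0.map π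
    rw [← Ideal.map_mul, hm00]
  have hann : ∀ x ∈ m, (∀ y ∈ m, y * x = 0) → x = 0 := by
    intro x hx h
    obtain ⟨b, rfl⟩ := (hm x).1 hx
    have h2 : ι b ∈ 𝔞 := by
      rw [h𝔞]
      intro t ht
      rw [← hm00] at ht
      refine Submodule.mul_induction_on ht ?_ ?_
      · intro v hv c hc
        obtain ⟨v', rfl⟩ := (hm0 v).1 hv
        have h3 : π (ι v' * ι b) = 0 := by
          rw [map_mul]
          exact h _ ((hm _).2 ⟨v', rfl⟩)
        have h4 : ι v' * ι b ∈ 𝔞 := Ideal.Quotient.eq_zero_iff_mem.1 h3
        have h5 := (h𝔞 _).1 h4 c hc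
        calc ι b * (ι v' * c) = ι v' * ι b * c := by ring
          _ = 0 := h5
      · intro v c hv hc
        rw [mul_add, hv, hc, add_zero]
    exact Ideal.Quotient.eq_zero_iff_mem.2 h2
  -- a nonzero element
  obtain ⟨a, ha⟩ : ∃ a : A, π (ι a) ≠ 0 := by
    by_contra hc
    push Not at hc
    apply hA
    refine ⟨0, fun a l hl => ?_⟩
    have : l = [] := List.length_eq_zero_iff.1 hl
    subst this
    simp only [List.foldl_nil]
    have h3 : m0 * m0 = ⊥ := by
      rw [eq_bot_iff]
      rw [Ideal.mul_le]
      intro r hr s hs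
      obtain ⟨r', rfl⟩ := (hm0 r).1 hr
      have h4 : ι r' ∈ 𝔞 := Ideal.Quotient.eq_zero_iff_mem.1 (hc r')
      exact (h𝔞 _).1 h4 s hs
    rw [hm00] at h3
    have h5 : ι a ∈ (⊥ : Ideal U) := by rw [← h3]; exact hmem a
    have h6 : ι a = 0 := h5
    exact Unitization.inr_injective (R := F) (by rw [Unitization.inr_zero]; exact h6)
  have hz : π (ι a) ∉ (⊥ : Subalgebra F Q) := by
    intro hbot
    rw [Algebra.mem_bot] at hbot
    obtain ⟨c, hc⟩ := hbot
    have hn : IsNilpotent (algebraMap F Q c) := by
      rw [hc]; exact hnil _ ((hm _).2 ⟨a, rfl⟩)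
    have : Nontrivial Q := nontrivial_of_ne _ _ ha
    have hc0 : c = 0 := by
      have := (IsNilpotent.map_iff (FaithfulSMul.algebraMap_injective F Q)).1 hn
      exact this.eq_zero
    apply ha
    rw [← hc, hc0, map_zero]
  obtain ⟨S, hzS, hS⟩ := iterate_step (F := F) m hnil hm2 hann (π (ι a)) hz (π (ι a))
    ((hm _).2 ⟨a, rfl⟩) ha
  let B : NonUnitalSubalgebra F A :=
    { carrier := {x | π (ι x) ∈ S}
      add_mem' := by
        intro x y hx hy
        have : ι (x + y) = ι x + ι y := Unitization.inr_add F x y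
        simp only [Set.mem_ofPred_eq] at hx hy ⊢
        rw [this, map_add]
        exact add_mem hx hy
      zero_mem' := by
        have : ι (0 : A) = 0 := Unitization.inr_zero F
        simp only [Set.mem_ofPred_eq]
        rw [this, map_zero]
        exact zero_mem _
      mul_mem' := by
        intro x y hx hy
        have : ι (x * y) = ι x * ι y := Unitization.inr_mul F x y
        simp only [Set.mem_ofPred_eq] at hx hy ⊢
        rw [this, map_mul]
        exact mul_mem hx hy
      smul_mem' := by
        intro c x hx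
        have : ι (c • x) = algebraMap F U c * ι x := by
          rw [← Algebra.smul_def]
          exact Unitization.inr_smul F c x
        simp only [Set.mem_ofPred_eq] at hx ⊢
        rw [this, map_mul]
        exact mul_mem (algebraMap_mem S c) hx }
  have hBne : B ≠ ⊤ := by
    intro hB
    have : a ∈ B := by rw [hB]; trivial
    exact hzS this
  obtain ⟨n, hn⟩ := (hP B hBne).prod_eq_zero
  obtain ⟨l, hl1, hl2, hl3⟩ := hS n
  have hlift : ∀ l : List Q, (∀ y ∈ l, y ∈ m ∧ y ∈ S) →
      ∃ l' : List A, (∀ x ∈ l', x ∈ B) ∧ l'.length = l.length ∧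
        π ((l'.map (Unitization.inr : A → Unitization F A)).prod) = l.prod := by
    intro l
    induction l with
    | nil => intro _; exact ⟨[], by simp, rfl, by simp⟩
    | cons y l ih =>
      intro h
      obtain ⟨l', h1', h2', h3'⟩ := ih (fun x hx => h x (by simp [hx]))
      obtain ⟨hy1, hy2⟩ := h y (by simp)
      obtain ⟨b, hb⟩ := (hm y).1 hy1
      refine ⟨b :: l', ?_, by simp [h2'], ?_⟩
      · intro x hx
        rcases List.mem_cons.1 hx with rfl | hx
        · change π (ι x) ∈ S
          rw [hb]; exact hy2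
        · exact h1' x hx
      · rw [List.map_cons, List.prod_cons, map_mul, h3', List.prod_cons]
        change π (ι b) * _ = _
        rw [hb]
  obtain ⟨l', h1', h2', h3'⟩ := hlift l hl2
  have h4' := hn l' h1' (by rw [h2', hl1])
  rw [h4', map_zero] at h3'
  exact hl3 h3'.symm

end comm

section main

variable {F : Type*} [Field F] [CharZero F] {A : Type*} [NonUnitalRing A] [Module F A]
  [IsScalarTower F A A] [SMulCommClass F A A]

theorem foldl_map_hom {C : Type*} [NonUnitalRing C] [Module F C]
    (f : A →ₙₐ[F] C) (a : A) (l : List A) :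
    f (l.foldl (fun x y => x * y) a) = (l.map f).foldl (fun x y => x * y) (f a) := by
  induction l generalizing a with
  | nil => simp
  | cons x l ih => rw [List.foldl_cons, ih, List.map_cons, List.foldl_cons, map_mul]

theorem lift_list {C : Type*} [NonUnitalRing C] [Module F C]
    (f : A →ₙₐ[F] C) (hf : Function.Surjective f) (P : C → Prop) (l : List C)
    (hl : ∀ x ∈ l, P x) : ∃ l' : List A, l'.map f = l ∧ ∀ x ∈ l', P (f x) := by
  induction l with
  | nil => exact ⟨[], rfl, by simp⟩
  | cons y l ih =>
    obtain ⟨l', h1, h2⟩ := ih (fun x hx => hl x (by simp [hx]))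
    obtain ⟨b, hb⟩ := hf y
    refine ⟨b :: l', by rw [List.map_cons, hb, h1], ?_⟩
    intro x hx
    rcases List.mem_cons.1 hx with rfl | hx
    · rw [hb]; exact hl y (by simp)
    · exact h2 x hx

theorem comm_image (h1 : 1 < Module.rank F A)
    (hP : ∀ B : NonUnitalSubalgebra F A, B ≠ ⊤ → Nilp B)
    (C : Type*) [NonUnitalCommRing C] [Module F C] [IsScalarTower F C C] [SMulCommClass F C C]
    (f : A →ₙₐ[F] C) (hf : Function.Surjective f) (hC : ∃ c : C, c ≠ 0) :
    ∃ n : ℕ, ∀ a : A, ∀ l : List A, l.length = n → l.foldl (fun x y => x * y) a = 0 := by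
  classical
  by_contra hA
  have hnilA := nil_of_psn h1 hP
  have hsq := sqAlg_eq_top hP hA
  have hPC : ∀ B : NonUnitalSubalgebra F C, B ≠ ⊤ → Nilp B := by
    intro B hB
    have hB' : B.comap f ≠ ⊤ := by
      intro h
      apply hB
      rw [eq_top_iff]
      intro c _
      obtain ⟨a, rfl⟩ := hf c
      have : a ∈ B.comap f := by rw [h]; trivial
      exact this
    obtain ⟨n, hn⟩ := hP _ hB'
    refine ⟨n, fun c hc l hl hlen => ?_⟩
    obtain ⟨a, rfl⟩ := hf c
    obtain ⟨l', h2, h3⟩ := lift_list f hf (fun x => x ∈ B) l hl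
    have h4 := hn a hc l' h3 (by rw [← hlen, ← h2, List.length_map])
    rw [← h2, ← foldl_map_hom, h4, map_zero]
  have hsqC : sqAlg F C = ⊤ := by
    rw [eq_top_iff]
    intro c hc
    clear hc
    obtain ⟨a, rfl⟩ := hf c
    have ha : a ∈ sqAlg F A := by rw [hsq]; trivial
    have ha' : a ∈ Submodule.span F (Set.range fun p : A × A => p.1 * p.2) := ha
    clear ha
    induction ha' using Submodule.span_induction with
    | mem x hx =>
      obtain ⟨p, rfl⟩ := hx
      rw [map_mul]
      exact mul_mem_sqAlg _ _
    | zero => rw [map_zero]; exact zero_mem _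
    | add x y _ _ hx hy => rw [map_add]; exact add_mem hx hy
    | smul c x _ hx => rw [map_smul]; exact SMulMemClass.smul_mem c hx
  -- C is not nilpotent
  have hCn : ¬ ∃ n : ℕ, ∀ a : C, ∀ l : List C, l.length = n →
      l.foldl (fun x y => x * y) a = 0 := by
    rintro ⟨n, hn⟩
    obtain ⟨c0, hc0⟩ := hC
    induction n with
    | zero => exact hc0 (by simpa using hn c0 [] rfl)
    | succ n ih =>
      apply ih
      intro a l hl
      have ha : a ∈ sqAlg F C := by rw [hsqC]; trivial
      have ha' : a ∈ Submodule.span F (Set.range fun p : C × C => p.1 * p.2) := ha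
      clear ha
      have hlin : ∀ (l : List C) (x y : C), l.foldl (fun x y => x * y) (x + y) =
          l.foldl (fun x y => x * y) x + l.foldl (fun x y => x * y) y := by
        intro l
        induction l with
        | nil => intro x y; simp
        | cons u l ih => intro x y; simp only [List.foldl_cons, add_mul, ih]
      have hsm : ∀ (l : List C) (c : F) (x : C), l.foldl (fun x y => x * y) (c • x) =
          c • l.foldl (fun x y => x * y) x := by
        intro l
        induction l with
        | nil => intro c x; simp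
        | cons u l ih => intro c x; simp only [List.foldl_cons, smul_mul_assoc, ih]
      induction ha' using Submodule.span_induction with
      | mem x hx =>
        obtain ⟨p, rfl⟩ := hx
        have := hn p.1 (p.2 :: l) (by simp [hl])
        simpa using this
      | zero =>
        have := hsm l 0 0
        simpa using this
      | add x y _ _ hx hy => rw [hlin, hx, hy, add_zero]
      | smul c x _ hx => rw [hsm, hx, smul_zero]
  by_cases hr : 1 < Module.rank F C
  · exact hCn (comm_case hr hPC)
  · rw [not_lt, rank_le_one_iff] at hr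
    obtain ⟨q, hq⟩ := hr
    obtain ⟨d, hd⟩ := hq (q * q)
    have hd0 : d ≠ 0 := by
      intro h0
      rw [h0, zero_smul] at hd
      apply hCn
      refine ⟨1, fun a l hl => ?_⟩
      match l, hl with
      | [b], _ =>
        obtain ⟨r, rfl⟩ := hq a
        obtain ⟨s, rfl⟩ := hq b
        simp only [List.foldl_cons, List.foldl_nil]
        rw [smul_mul_smul_comm, ← hd, smul_zero]
    have hee : (d⁻¹ • q) * (d⁻¹ • q) = d⁻¹ • q := by
      rw [smul_mul_smul_comm, ← hd, smul_smul, mul_assoc, inv_mul_cancel₀ hd0, mul_one]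
    have hq0 : q ≠ 0 := by
      intro h0
      obtain ⟨c, hc⟩ := hC
      apply hc
      obtain ⟨r, hr⟩ := hq c
      rw [← hr, h0, smul_zero]
    have he0 : d⁻¹ • q ≠ 0 := smul_ne_zero (inv_ne_zero hd0) hq0
    obtain ⟨a, ha⟩ := hf (d⁻¹ • q)
    obtain ⟨n, hn⟩ := hnilA a
    -- foldl of replicate
    have h5 : ∀ k : ℕ, (List.replicate k (d⁻¹ • q)).foldl (fun x y => x * y) (d⁻¹ • q)
        = d⁻¹ • q := by
      intro k
      induction k with
      | zero => simp
      | succ k ih => rw [List.replicate_succ, List.foldl_cons, hee, ih]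
    have h6 : (List.replicate n a).foldl (fun x y => x * y) a = 0 := by
      apply Unitization.inr_injective (R := F)
      rw [inr_foldl, List.map_replicate, List.prod_replicate, hn, mul_zero, Unitization.inr_zero]
    have h7 := congrArg f h6
    rw [foldl_map_hom, List.map_replicate, ha, h5, map_zero] at h7
    exact he0 h7

end main

end H724.PSN
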