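import Pool.Agent.H724.PSNStep

set_option autoImplicit false

namespace H724.PSN

open Polynomial

theorem iterate_step {F 𝔸 : Type*} [Field F] [CharZero F] [CommRing 𝔸] [Algebra F 𝔸]
    (m : Ideal 𝔸) (hnil : ∀ x ∈ m, IsNilpotent x) (hm2 : m * m = m)
    (hann : ∀ x ∈ m, (∀ y ∈ m, y * x = 0) → x = 0)
    (z : 𝔸) (hz : z ∉ (⊥ : Subalgebra F 𝔸)) (x0 : 𝔸) (hx0 : x0 ∈ m) (hx0' : x0 ≠ 0) :
    ∃ S : Subalgebra F 𝔸, z ∉ S ∧
      ∀ k : ℕ, ∃ l : List 𝔸, l.length = k ∧ (∀ y ∈ l, y ∈ m ∧ y ∈ S) ∧ l.prod ≠ 0 := by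
  classical
  let St := {p : Subalgebra F 𝔸 × 𝔸 // (Subalgebra.toSubmodule p.1).FG ∧ z ∉ p.1 ∧
    p.2 ∈ m ∧ p.2 ≠ 0}
  have hstep : ∀ s : St, ∃ t : St, s.1.1 ≤ t.1.1 ∧ ∃ y ∈ m, y ∈ t.1.1 ∧ t.1.2 = y * s.1.2 := by
    rintro ⟨⟨R, w⟩, hfg, hzR, hwm, hw0⟩
    simp only at hfg hzR hwm hw0
    obtain ⟨a, ha, haw⟩ : ∃ a ∈ m, a * w ≠ 0 := by
      by_contra hc
      push Not at hc
      exact hw0 (hann w hwm hc)
    obtain ⟨y, hy, hyw, hzy⟩ := one_step m hnil hm2 hann R hfg z hzR w a ha haw
    exact ⟨⟨(ext R y, y * w), ext_fg hfg (hnil y hy), hzy, m.mul_mem_left _ hwm, hyw⟩,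
      le_ext R y, y, hy, self_mem_ext R y, rfl⟩
  choose nx hnx1 hnx2 using hstep
  let s0 : St := ⟨(⊥, x0), by
    refine ⟨?_, hz, hx0, hx0'⟩
    exact Subalgebra.fg_bot_toSubmodule⟩
  let s : ℕ → St := fun n => Nat.rec s0 (fun _ t => nx t) n
  have hs : ∀ n, s (n + 1) = nx (s n) := fun n => rfl
  have hmono : Monotone (fun n => (s n).1.1) := by
    apply monotone_nat_of_le_succ
    intro n
    rw [hs]
    exact hnx1 (s n)
  have hlist : ∀ k : ℕ, ∃ l : List 𝔸, l.length = k ∧ (∀ y ∈ l, y ∈ m ∧ y ∈ (s k).1.1) ∧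
      l.prod * x0 = (s k).1.2 := by
    intro k
    induction k with
    | zero => exact ⟨[], rfl, by simp, by simp [s, s0]⟩
    | succ k ih =>
      obtain ⟨l, hl1, hl2, hl3⟩ := ih
      obtain ⟨y, hy1, hy2, hy3⟩ := hnx2 (s k)
      refine ⟨y :: l, by simp [hl1], ?_, ?_⟩
      · intro x hx
        rcases List.mem_cons.1 hx with rfl | hx
        · exact ⟨hy1, hy2⟩
        · exact ⟨(hl2 x hx).1, hmono (Nat.le_succ k) (hl2 x hx).2⟩
      · rw [hs, hy3, List.prod_cons, mul_assoc, hl3]
  refine ⟨⨆ n, (s n).1.1, ?_, ?_⟩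
  · intro hmem
    rw [← SetLike.mem_coe, Subalgebra.coe_iSup_of_directed hmono.directed_le] at hmem
    obtain ⟨n, hn⟩ := Set.mem_iUnion.1 hmem
    exact (s n).2.2.1 hn
  · intro k
    obtain ⟨l, hl1, hl2, hl3⟩ := hlist k
    refine ⟨l, hl1, fun y hy => ⟨(hl2 y hy).1, le_iSup (fun n => (s n).1.1) k (hl2 y hy).2⟩, ?_⟩
    intro h0
    rw [h0, zero_mul] at hl3
    exact (s k).2.2.2.2 hl3.symm

section general

variable {F : Type*} [Field F] {A : Type*} [NonUnitalRing A] [Module F A]
  [IsScalarTower F A A] [SMulCommClass F A A]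

/-- Nilpotency of a subalgebra, in the form used by the frozen statement. -/
def Nilp (B : NonUnitalSubalgebra F A) : Prop :=
  ∃ n : ℕ, ∀ a ∈ B, ∀ l : List A, (∀ x ∈ l, x ∈ B) → l.length = n →
    l.foldl (fun x y => x * y) a = 0

theorem inr_foldl (a : A) (l : List A) :
    ((l.foldl (fun x y => x * y) a : A) : Unitization F A)
      = (a : Unitization F A) * (l.map (Unitization.inr : A → Unitization F A)).prod := by
  induction l generalizing a with
  | nil => simp
  | cons x l ih =>
    rw [List.foldl_cons, ih, List.map_cons, List.prod_cons, Unitization.inr_mul, mul_assoc]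

theorem Nilp.prod_eq_zero {B : NonUnitalSubalgebra F A} (hB : Nilp B) :
    ∃ n : ℕ, ∀ l : List A, (∀ x ∈ l, x ∈ B) → l.length = n →
      (l.map (Unitization.inr : A → Unitization F A)).prod = 0 := by
  obtain ⟨n, hn⟩ := hB
  refine ⟨n + 1, fun l hl hlen => ?_⟩
  cases l with
  | nil => simp at hlen
  | cons a l =>
    have h := hn a (hl a (by simp)) l (fun x hx => hl x (by simp [hx])) (by simpa using hlen)
    rw [List.map_cons, List.prod_cons, ← inr_foldl, h, Unitization.inr_zero]

theorem not_nilp_of_pow {B : NonUnitalSubalgebra F A} {b : A} (hb : b ∈ B)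
    (h : ∀ n : ℕ, (b : Unitization F A) ^ n ≠ 0) : ¬ Nilp B := by
  intro hB
  obtain ⟨n, hn⟩ := hB.prod_eq_zero
  have := hn (List.replicate n b) (fun x hx => by rw [List.eq_of_mem_replicate hx]; exact hb)
    (by simp)
  rw [List.map_replicate, List.prod_replicate] at this
  exact h n this

/-- Every element is nilpotent. -/
theorem nil_of_psn (h1 : 1 < Module.rank F A)
    (hP : ∀ B : NonUnitalSubalgebra F A, B ≠ ⊤ → Nilp B) (a : A) :
    IsNilpotent (a : Unitization F A) := by
  by_contra hnn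
  have hpow : ∀ n : ℕ, (a : Unitization F A) ^ n ≠ 0 := fun n hn => hnn ⟨n, hn⟩
  let B : NonUnitalSubalgebra F A :=
    { carrier := {x | ∃ q : F[X], (x : Unitization F A) =
        aeval (a : Unitization F A) (X ^ 2 * q)}
      add_mem' := by
        rintro x y ⟨q, hq⟩ ⟨q', hq'⟩
        exact ⟨q + q', by rw [mul_add, map_add, Unitization.inr_add, hq, hq']⟩
      zero_mem' := ⟨0, by simp⟩
      mul_mem' := by
        rintro x y ⟨q, hq⟩ ⟨q', hq'⟩
        exact ⟨q * (X ^ 2 * q'), by rw [Unitization.inr_mul, hq, hq', ← map_mul, mul_assoc]⟩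
      smul_mem' := by
        rintro c x ⟨q, hq⟩
        exact ⟨c • q, by rw [mul_smul_comm, map_smul, Unitization.inr_smul, hq]⟩ }
  have haB : a * a ∈ B := ⟨1, by simp [Unitization.inr_mul, pow_two]⟩
  have hBtop : B = ⊤ := by
    by_contra hne
    refine not_nilp_of_pow haB (fun n => ?_) (hP B hne)
    rw [Unitization.inr_mul, ← pow_two, ← pow_mul]
    exact hpow _
  have haB' : a ∈ B := by rw [hBtop]; trivial
  obtain ⟨q, hq⟩ := haB'
  set α := (a : Unitization F A) with hα
  set β := aeval α q with hβ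
  have hcomm : α * β = β * α := by
    have h2 : aeval α (X * q) = aeval α (q * X) := by rw [mul_comm]
    simpa using h2
  have hq' : α = α * (α * β) := by
    rw [map_mul, map_pow, aeval_X, pow_two, mul_assoc] at hq
    exact hq
  obtain ⟨e, he⟩ : ∃ e : A, (e : Unitization F A) = α * β := by
    refine ⟨(α * β).snd, ?_⟩
    apply Unitization.ext
    · simp [hα]
    · simp
  have he2 : (e : Unitization F A) * e = e := by
    rw [he]
    calc α * β * (α * β) = α * (β * α) * β := by noncomm_ring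
      _ = (α * (α * β)) * β := by rw [hcomm]
      _ = α * β := by rw [← hq']
  have he0 : e ≠ 0 := by
    intro h0
    rw [h0, Unitization.inr_zero] at he
    rw [← he, mul_zero] at hq'
    exact hpow 1 (by rw [pow_one]; exact hq')
  have hee : e * e = e := by
    have : ((e * e : A) : Unitization F A) = e := by rw [Unitization.inr_mul, he2]
    exact Unitization.inr_injective this
  let B2 : NonUnitalSubalgebra F A :=
    { carrier := {x | ∃ c : F, c • e = x}
      add_mem' := by
        rintro x y ⟨c, rfl⟩ ⟨c', rfl⟩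
        exact ⟨c + c', by rw [add_smul]⟩
      zero_mem' := ⟨0, by simp⟩
      mul_mem' := by
        rintro x y ⟨c, rfl⟩ ⟨c', rfl⟩
        exact ⟨c * c', by rw [smul_mul_smul_comm, hee]⟩
      smul_mem' := by
        rintro c x ⟨c', rfl⟩
        exact ⟨c * c', by rw [mul_smul]⟩ }
  have heB2 : e ∈ B2 := ⟨1, by simp⟩
  have hB2top : B2 = ⊤ := by
    by_contra hne
    refine not_nilp_of_pow heB2 (fun n => ?_) (hP B2 hne)
    have h3 : (e : Unitization F A) ≠ 0 := by
      intro h
      exact he0 (Unitization.inr_injective (by rw [h, Unitization.inr_zero]))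
    cases n with
    | zero =>
      rw [pow_zero]
      intro h
      apply h3
      rw [← mul_one (e : Unitization F A), h, mul_zero]
    | succ n =>
      have : IsIdempotentElem (e : Unitization F A) := he2
      rw [this.pow_succ_eq n]
      exact h3
  have hrank : Module.rank F A ≤ 1 := by
    rw [rank_le_one_iff]
    refine ⟨e, fun v => ?_⟩
    have : v ∈ B2 := by rw [hB2top]; trivial
    exact this
  exact absurd h1 (not_lt.2 hrank)

/-- The subalgebra `A²`. -/
def sqAlg (F A : Type*) [Field F] [NonUnitalRing A] [Module F A]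
    [IsScalarTower F A A] [SMulCommClass F A A] : NonUnitalSubalgebra F A :=
  { Submodule.span F (Set.range fun p : A × A => p.1 * p.2) with
    mul_mem' := fun {x y} _ _ => Submodule.subset_span ⟨(x, y), rfl⟩ }

theorem mul_mem_sqAlg (x y : A) : x * y ∈ sqAlg F A :=
  Submodule.subset_span (R := F) (s := Set.range fun p : A × A => p.1 * p.2) ⟨(x, y), rfl⟩

theorem pairs (k : ℕ) : ∀ l : List A, l.length = 2 * k →
    ∃ l' : List A, l'.length = k ∧ (∀ x ∈ l', x ∈ sqAlg F A) ∧
      (l'.map (Unitization.inr : A → Unitization F A)).prod =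
        (l.map (Unitization.inr : A → Unitization F A)).prod := by
  induction k with
  | zero =>
    intro l hl
    have : l = [] := List.length_eq_zero_iff.1 (by simpa using hl)
    subst this
    exact ⟨[], rfl, by simp, rfl⟩
  | succ k ih =>
    intro l hl
    match l, hl with
    | x :: y :: t, hl =>
      obtain ⟨l', h1, h2, h3⟩ := ih t (by simp at hl; omega)
      refine ⟨(x * y) :: l', by simp [h1], ?_, ?_⟩
      · intro u hu
        rcases List.mem_cons.1 hu with rfl | hu
        · exact mul_mem_sqAlg x y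
        · exact h2 u hu
      · simp only [List.map_cons, List.prod_cons, Unitization.inr_mul, h3, mul_assoc]

theorem sqAlg_eq_top
    (hP : ∀ B : NonUnitalSubalgebra F A, B ≠ ⊤ → Nilp B)
    (hA : ¬ ∃ n : ℕ, ∀ a : A, ∀ l : List A, l.length = n → l.foldl (fun x y => x * y) a = 0) :
    sqAlg F A = ⊤ := by
  by_contra hne
  apply hA
  obtain ⟨n, hn⟩ := (hP _ hne).prod_eq_zero
  refine ⟨2 * n + 1, fun a l hl => ?_⟩
  obtain ⟨l', h1, h2, h3⟩ := pairs (F := F) (n + 1) (a :: l) (by simp [hl]; ring)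
  match l', h1 with
  | b :: l'', h1 =>
    have h4 := hn l'' (fun x hx => h2 x (by simp [hx])) (by simpa using h1)
    rw [List.map_cons, List.prod_cons, h4, mul_zero] at h3
    apply Unitization.inr_injective (R := F)
    rw [inr_foldl, Unitization.inr_zero, h3, List.map_cons, List.prod_cons]

end general

end H724.PSN
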