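import Mathlib

set_option autoImplicit false

namespace H724.PSN

open Polynomial

/-- Openness of linear independence along a polynomial family. -/
theorem finite_not_linearIndependent {F 𝔸 κ : Type*} [Field F] [CommRing 𝔸] [Algebra F 𝔸]
    [Finite κ] (p : κ → 𝔸[X])
    (h0 : LinearIndependent F (fun j => (p j).coeff 0)) :
    {δ : F | ¬ LinearIndependent F (fun j => (p j).eval (algebraMap F 𝔸 δ))}.Finite := by
  classical
  cases nonempty_fintype κ
  -- dual functionals
  obtain ⟨g, hg⟩ := LinearMap.exists_leftInverse_of_injective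
    (Finsupp.linearCombination F (fun j => (p j).coeff 0))
    (LinearMap.ker_eq_bot.2 h0)
  let φ : κ → (𝔸 →ₗ[F] F) := fun i => (Finsupp.lapply i).comp g
  have hφ : ∀ i j, φ i ((p j).coeff 0) = if i = j then 1 else 0 := by
    intro i j
    have h1 : g ((p j).coeff 0) = Finsupp.single j 1 := by
      have := LinearMap.congr_fun hg (Finsupp.single j 1)
      simpa using this
    simp only [φ, LinearMap.comp_apply, h1, Finsupp.lapply_apply, Finsupp.single_apply]
    simp [eq_comm]
  let M : Matrix κ κ F[X] := fun i j =>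
    ∑ l ∈ Finset.range ((p j).natDegree + 1), C (φ i ((p j).coeff l)) * X ^ l
  have hM : ∀ (δ : F) (i j : κ), (M i j).eval δ = φ i ((p j).eval (algebraMap F 𝔸 δ)) := by
    intro δ i j
    have h2 : (p j).eval (algebraMap F 𝔸 δ)
        = ∑ l ∈ Finset.range ((p j).natDegree + 1), (δ ^ l) • (p j).coeff l := by
      rw [Polynomial.eval_eq_sum_range]
      refine Finset.sum_congr rfl fun l _ => ?_
      rw [← map_pow, Algebra.smul_def, mul_comm]
    rw [h2, map_sum]
    simp only [M, Polynomial.eval_finsetSum, Polynomial.eval_mul, Polynomial.eval_C,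
      Polynomial.eval_pow, Polynomial.eval_X, map_smul, smul_eq_mul]
    exact Finset.sum_congr rfl fun l _ => mul_comm _ _
  have hdet : ∀ δ : F, (M.det).eval δ = (M.map (fun q => q.eval δ)).det := by
    intro δ
    have := RingHom.map_det (Polynomial.evalRingHom δ) M
    simpa [RingHom.mapMatrix_apply] using this
  have hdet0 : M.det ≠ 0 := by
    intro h
    have h3 := hdet 0
    rw [h] at h3
    have h4 : M.map (fun q => q.eval (0 : F)) = 1 := by
      ext i j
      rw [Matrix.map_apply, hM, map_zero, ← Polynomial.coeff_zero_eq_eval_zero, hφ]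
      rfl
    rw [h4, Matrix.det_one] at h3
    simp at h3
  refine (Polynomial.finite_setOfPred_isRoot hdet0).subset ?_
  intro δ hδ
  simp only [Set.mem_ofPred_eq] at hδ ⊢
  by_contra hne
  apply hδ
  have hne' : (M.map (fun q => q.eval δ)).det ≠ 0 := by
    rw [← hdet]; exact hne
  rw [Fintype.linearIndependent_iff]
  intro a ha
  have h5 : (M.map (fun q => q.eval δ)).mulVec a = 0 := by
    ext i
    have h6 := congrArg (φ i) ha
    rw [map_sum, map_zero] at h6
    simp only [map_smul, smul_eq_mul] at h6
    simp only [Matrix.mulVec, dotProduct, Matrix.map_apply, hM, Pi.zero_apply]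
    rw [← h6]
    exact Finset.sum_congr rfl fun l _ => mul_comm _ _
  have h7 := Matrix.eq_zero_of_mulVec_eq_zero hne' h5
  intro i
  rw [h7]; rfl

/-- Derivative lemma: if `v(δ)` lies in the span of `e_j(δ)` for all but finitely many `δ`,
`e_j(0)` is linearly independent and `v(0) = 0`, then `v'(0)` is in the span of `e_j(0)`. -/
theorem coeff_one_mem_span {F 𝔸 κ : Type*} [Field F] [Infinite F] [CommRing 𝔸] [Algebra F 𝔸]
    [Finite κ] (p : κ → 𝔸[X]) (v : 𝔸[X])
    (h0 : LinearIndependent F (fun j => (p j).coeff 0)) (hv0 : v.coeff 0 = 0)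
    (hfin : {δ : F | v.eval (algebraMap F 𝔸 δ) ∉
      Submodule.span F (Set.range fun j => (p j).eval (algebraMap F 𝔸 δ))}.Finite) :
    v.coeff 1 ∈ Submodule.span F (Set.range fun j => (p j).coeff 0) := by
  classical
  by_contra hcon
  let q : Option κ → 𝔸[X] := fun o => Option.casesOn' o (divX v) p
  have hq0 : LinearIndependent F (fun o => (q o).coeff 0) := by
    have h1 := LinearIndependent.option h0 hcon
    have h2 : (fun o => (q o).coeff 0) = (fun o => Option.casesOn' o (v.coeff 1)
        (fun j => (p j).coeff 0) : Option κ → 𝔸) := by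
      funext o
      cases o with
      | none => simp [q, Polynomial.coeff_divX]
      | some j => simp [q]
    rw [h2]
    exact h1
  have hf1 := finite_not_linearIndependent q hq0
  have hf2 := (hf1.union hfin).union (Set.finite_singleton (0 : F))
  obtain ⟨δ, hδ⟩ := hf2.exists_notMem
  simp only [Set.mem_union, Set.mem_ofPred_eq, Set.mem_singleton_iff, not_or, not_not] at hδ
  obtain ⟨⟨hli, hsp⟩, hne⟩ := hδ
  have hli' : LinearIndependent F (fun o => Option.casesOn' o
      ((divX v).eval (algebraMap F 𝔸 δ)) (fun j => (p j).eval (algebraMap F 𝔸 δ)) :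
      Option κ → 𝔸) := by
    have h2 : (fun o => Option.casesOn' o
      ((divX v).eval (algebraMap F 𝔸 δ)) (fun j => (p j).eval (algebraMap F 𝔸 δ)) :
      Option κ → 𝔸) = (fun o => (q o).eval (algebraMap F 𝔸 δ)) := by
      funext o
      cases o <;> simp [q]
    rw [h2]
    exact hli
  have h3 := (linearIndependent_option'.1 hli').2
  apply h3
  have h4 : v.eval (algebraMap F 𝔸 δ) = δ • (divX v).eval (algebraMap F 𝔸 δ) := by
    conv_lhs => rw [← Polynomial.divX_mul_X_add v, hv0]
    simp [Algebra.smul_def, mul_comm]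
  have h5 : (divX v).eval (algebraMap F 𝔸 δ) = δ⁻¹ • v.eval (algebraMap F 𝔸 δ) := by
    rw [h4, smul_smul, inv_mul_cancel₀ hne, one_smul]
  rw [h5]
  exact Submodule.smul_mem _ _ hsp

end H724.PSN
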