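import Pool.Agent.H724.PSNOpen

set_option autoImplicit false

namespace H724.PSN

open Polynomial

section
variable {F 𝔸 : Type*} [Field F] [CommRing 𝔸] [Algebra F 𝔸]

/-- The subalgebra `R[y]`. -/
noncomputable def ext (R : Subalgebra F 𝔸) (y : 𝔸) : Subalgebra F 𝔸 :=
  ((Polynomial.aeval y : R[X] →ₐ[R] 𝔸).range).restrictScalars F

theorem mem_ext {R : Subalgebra F 𝔸} {y x : 𝔸} :
    x ∈ ext R y ↔ ∃ f : R[X], Polynomial.aeval y f = x := by
  unfold ext
  rw [Subalgebra.mem_restrictScalars]
  exact AlgHom.mem_range _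

theorem le_ext (R : Subalgebra F 𝔸) (y : 𝔸) : R ≤ ext R y := by
  intro x hx
  rw [mem_ext]
  refine ⟨C ⟨x, hx⟩, ?_⟩
  rw [Polynomial.aeval_C]
  rfl

theorem self_mem_ext (R : Subalgebra F 𝔸) (y : 𝔸) : y ∈ ext R y := by
  rw [mem_ext]
  exact ⟨X, Polynomial.aeval_X y⟩

theorem ext_eq_span {R : Subalgebra F 𝔸} {r : ℕ} {b : Fin r → 𝔸}
    (hb : Submodule.span F (Set.range b) = Subalgebra.toSubmodule R) {y : 𝔸} {n : ℕ}
    (hy : y ^ n = 0) :
    Subalgebra.toSubmodule (ext R y) =
      Submodule.span F (Set.range fun p : Fin r × Fin n => b p.1 * y ^ (p.2 : ℕ)) := by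
  apply le_antisymm
  · intro x hx
    rw [Subalgebra.mem_toSubmodule, mem_ext] at hx
    obtain ⟨f, rfl⟩ := hx
    rw [Polynomial.aeval_eq_sum_range]
    refine Submodule.sum_mem _ fun i _ => ?_
    by_cases hi : n ≤ i
    · rw [pow_eq_zero_of_le hi hy, smul_zero]
      exact Submodule.zero_mem _
    · push Not at hi
      have h1 : ((f.coeff i : R) : 𝔸) ∈ Submodule.span F (Set.range b) := by
        rw [hb]; exact (f.coeff i).2
      have h2 : ((f.coeff i : R) : 𝔸) * y ^ i ∈
          (Submodule.span F (Set.range b)).map (LinearMap.mulRight F (y ^ i)) :=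
        ⟨_, h1, by simp⟩
      rw [Submodule.map_span] at h2
      rw [Subalgebra.smul_def, smul_eq_mul]
      refine Submodule.span_mono ?_ h2
      rintro _ ⟨_, ⟨j, rfl⟩, rfl⟩
      exact ⟨(j, ⟨i, hi⟩), by simp⟩
  · rw [Submodule.span_le]
    rintro _ ⟨p, rfl⟩
    have hb' : b p.1 ∈ R := by
      have : b p.1 ∈ Submodule.span F (Set.range b) := Submodule.subset_span ⟨_, rfl⟩
      rw [hb] at this
      exact this
    change b p.1 * y ^ (p.2 : ℕ) ∈ ext R y
    exact mul_mem (le_ext R y hb') (pow_mem (self_mem_ext R y) _)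

theorem ext_fg {R : Subalgebra F 𝔸} (hR : (Subalgebra.toSubmodule R).FG) {y : 𝔸}
    (hy : IsNilpotent y) : (Subalgebra.toSubmodule (ext R y)).FG := by
  obtain ⟨n, hn⟩ := hy
  obtain ⟨r, b, hb⟩ := Submodule.fg_iff_exists_fin_generating_family.1 hR
  rw [ext_eq_span hb hn]
  exact Submodule.fg_span (Set.finite_range _)

end

theorem mul_eq_bot_of_finite {F 𝔸 : Type*} [Field F] [CommRing 𝔸] [Algebra F 𝔸]
    (m P : Ideal 𝔸) (hnil : ∀ x ∈ m, IsNilpotent x) (hm2 : m * m = m)
    (V : Submodule F 𝔸) [FiniteDimensional F V] (h : ∀ x ∈ P, x ∈ V) : m * P = ⊥ := by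
  have hmP : m * P ≤ P := Ideal.mul_le_right
  have hle : (m * P).restrictScalars F ≤ V := fun x hx => h x (hmP hx)
  have hfd := Submodule.finiteDimensional_of_le hle
  have hfg : ((m * P).restrictScalars F).FG := Module.Finite.iff_fg.1 hfd
  have hNfg : (m * P).FG := by
    obtain ⟨s, hs⟩ := hfg
    refine ⟨s, le_antisymm ?_ ?_⟩
    · rw [Submodule.span_le]
      intro x hx
      have : x ∈ (m * P).restrictScalars F := by
        rw [← hs]; exact Submodule.subset_span hx
      exact this
    · intro x hx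
      have h1 : x ∈ Submodule.span F (s : Set 𝔸) := by
        rw [hs]; exact hx
      exact Submodule.span_le_restrictScalars F 𝔸 _ h1
  apply Submodule.eq_bot_of_le_smul_of_le_jacobson_bot m _ hNfg
  · rw [smul_eq_mul, ← mul_assoc, hm2]
  · intro x hx
    have : x ∈ nilradical 𝔸 := hnil x hx
    exact Ideal.radical_le_jacobson this

theorem one_step {F 𝔸 : Type*} [Field F] [CharZero F] [CommRing 𝔸] [Algebra F 𝔸]
    (m : Ideal 𝔸) (hnil : ∀ x ∈ m, IsNilpotent x) (hm2 : m * m = m)
    (hann : ∀ x ∈ m, (∀ y ∈ m, y * x = 0) → x = 0)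
    (R : Subalgebra F 𝔸) (hR : (Subalgebra.toSubmodule R).FG)
    (z : 𝔸) (hzR : z ∉ R) (w a : 𝔸) (ha : a ∈ m) (haw : a * w ≠ 0) :
    ∃ y ∈ m, y * w ≠ 0 ∧ z ∉ ext R y := by
  classical
  by_contra hcon
  push Not at hcon
  obtain ⟨n, hn⟩ := hnil a ha
  obtain ⟨r, b, hb⟩ := Submodule.fg_iff_exists_fin_generating_family.1 hR
  have hpow : ∀ c, (a * c) ^ n = 0 := by
    intro c; rw [mul_pow, hn, zero_mul]
  let e : 𝔸 → (Fin r × Fin n) → 𝔸 := fun y p => b p.1 * y ^ (p.2 : ℕ)
  have hext : ∀ c, Subalgebra.toSubmodule (ext R (a * c)) =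
      Submodule.span F (Set.range (e (a * c))) := fun c => ext_eq_span hb (hpow c)
  let D : 𝔸 → ℕ := fun c => Module.finrank F (Submodule.span F (Set.range (e (a * c))))
  have hD : ∀ c, D c ≤ Fintype.card (Fin r × Fin n) := fun c => finrank_range_le_card _
  obtain ⟨c0, hc0, hmax⟩ : ∃ c0, a * c0 * w ≠ 0 ∧ ∀ c, a * c * w ≠ 0 → D c ≤ D c0 := by
    let s : Set ℕ := D '' {c | a * c * w ≠ 0}
    have hs : s.Nonempty := ⟨D 1, 1, by simpa using haw, rfl⟩
    have hbd : BddAbove s := ⟨Fintype.card (Fin r × Fin n), by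
      rintro _ ⟨c, _, rfl⟩; exact hD c⟩
    obtain ⟨c0, hc0, h⟩ := Nat.sSup_mem hs hbd
    exact ⟨c0, hc0, fun c hc => by rw [h]; exact le_csSup hbd ⟨c, hc, rfl⟩⟩
  set y0 := a * c0 with hy0
  obtain ⟨κ, idx, hinj, hsp, hli⟩ := exists_linearIndependent' F (e y0)
  have : Finite κ := Finite.of_injective idx hinj
  cases nonempty_fintype κ
  have hcard : D c0 = Fintype.card κ := by
    have : Module.finrank F (Submodule.span F (Set.range (e y0 ∘ idx))) = Fintype.card κ :=
      finrank_span_eq_card hli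
    rw [hsp] at this
    exact this
  -- key claim
  have key : ∀ f : R[X], aeval y0 f = z → ∀ c' : 𝔸, aeval y0 (derivative f) * (a * c') ∈ ext R y0 := by
    intro f hf c'
    let lin : 𝔸[X] := C y0 + C (a * c') * X
    let p : κ → 𝔸[X] := fun j => C (b (idx j).1) * lin ^ ((idx j).2 : ℕ)
    let v : 𝔸[X] := C z - (f.map (algebraMap R 𝔸)).comp lin
    have hlin : ∀ δ : F, lin.eval (algebraMap F 𝔸 δ) = a * (c0 + c' * algebraMap F 𝔸 δ) := by
      intro δ
      simp only [lin, eval_add, eval_C, eval_mul, eval_X, hy0]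
      ring
    have hp0 : ∀ j, (p j).coeff 0 = (e y0 ∘ idx) j := by
      intro j
      rw [Polynomial.coeff_zero_eq_eval_zero]
      simp [p, lin, e]
    have hp : ∀ (δ : F) (j : κ), (p j).eval (algebraMap F 𝔸 δ) =
        (e (a * (c0 + c' * algebraMap F 𝔸 δ)) ∘ idx) j := by
      intro δ j
      simp only [p, eval_mul, eval_C, eval_pow, hlin, e, Function.comp]
    have hv : ∀ δ : F, v.eval (algebraMap F 𝔸 δ) =
        z - aeval (a * (c0 + c' * algebraMap F 𝔸 δ)) f := by
      intro δ
      simp only [v, eval_sub, eval_C, eval_comp, hlin, eval_map_algebraMap]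
    have hv0 : v.coeff 0 = 0 := by
      rw [Polynomial.coeff_zero_eq_eval_zero]
      simp only [v, lin, eval_sub, eval_C, eval_comp, eval_add, eval_mul, eval_X, mul_zero,
        add_zero, eval_map_algebraMap, hf, sub_self]
    have hv1 : v.coeff 1 = - (aeval y0 (derivative f) * (a * c')) := by
      have h1 : (derivative v).coeff 0 = v.coeff 1 := by
        rw [coeff_derivative]; simp
      rw [← h1, Polynomial.coeff_zero_eq_eval_zero]
      simp only [v, lin, derivative_sub, derivative_C, zero_sub, derivative_comp,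
        derivative_add, derivative_mul, derivative_X, eval_neg, eval_mul, eval_add,
        eval_comp, eval_C, eval_X, mul_zero, add_zero, zero_mul, zero_add, mul_one,
        Polynomial.derivative_map, eval_map_algebraMap]
      ring
    have hfin0 : {δ : F | a * (c0 + c' * algebraMap F 𝔸 δ) * w = 0}.Finite := by
      apply Set.Subsingleton.finite
      intro δ1 h1 δ2 h2
      simp only [Set.mem_ofPred_eq] at h1 h2
      by_contra hne
      have h3 : algebraMap F 𝔸 (δ1 - δ2) * (a * c' * w) = 0 := by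
        rw [map_sub]
        linear_combination h1 - h2
      have h4 : a * c' * w = 0 := by
        have h5 : (algebraMap F 𝔸 (δ1 - δ2)⁻¹) * (algebraMap F 𝔸 (δ1 - δ2) * (a * c' * w)) = 0 := by
          rw [h3, mul_zero]
        rwa [← mul_assoc, ← map_mul, inv_mul_cancel₀ (sub_ne_zero.2 hne), map_one, one_mul] at h5
      apply hc0
      have : y0 * w = a * (c0 + c' * algebraMap F 𝔸 δ1) * w - algebraMap F 𝔸 δ1 * (a * c' * w) := by
        rw [hy0]; ring
      rw [this, h1, h4, mul_zero, sub_zero]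
    have hLI0 : LinearIndependent F (fun j => (p j).coeff 0) := by
      have : (fun j => (p j).coeff 0) = e y0 ∘ idx := funext hp0
      rw [this]; exact hli
    have hfin1 := finite_not_linearIndependent p hLI0
    have hfin : {δ : F | v.eval (algebraMap F 𝔸 δ) ∉
        Submodule.span F (Set.range fun j => (p j).eval (algebraMap F 𝔸 δ))}.Finite := by
      refine (hfin0.union hfin1).subset ?_
      intro δ hδ
      simp only [Set.mem_union, Set.mem_ofPred_eq] at hδ ⊢
      by_contra hno
      push Not at hno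
      obtain ⟨hw, hLI⟩ := hno
      apply hδ
      have hyδ : a * (c0 + c' * algebraMap F 𝔸 δ) ∈ m := m.mul_mem_right _ ha
      have hz := hcon _ hyδ hw
      have hvm : v.eval (algebraMap F 𝔸 δ) ∈ ext R (a * (c0 + c' * algebraMap F 𝔸 δ)) := by
        rw [hv]
        exact sub_mem hz (mem_ext.2 ⟨f, rfl⟩)
      rw [← Subalgebra.mem_toSubmodule, hext] at hvm
      have heq : (fun j => (p j).eval (algebraMap F 𝔸 δ)) =
          e (a * (c0 + c' * algebraMap F 𝔸 δ)) ∘ idx := funext (hp δ)
      rw [heq] at hLI ⊢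
      have hle : Submodule.span F (Set.range (e (a * (c0 + c' * algebraMap F 𝔸 δ)) ∘ idx)) ≤
          Submodule.span F (Set.range (e (a * (c0 + c' * algebraMap F 𝔸 δ)))) :=
        Submodule.span_mono (Set.range_comp_subset_range _ _)
      have : FiniteDimensional F
          (Submodule.span F (Set.range (e (a * (c0 + c' * algebraMap F 𝔸 δ))))) :=
        FiniteDimensional.span_of_finite F (Set.finite_range _)
      have hfr : Module.finrank F
          (Submodule.span F (Set.range (e (a * (c0 + c' * algebraMap F 𝔸 δ))))) ≤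
          Module.finrank F
          (Submodule.span F (Set.range (e (a * (c0 + c' * algebraMap F 𝔸 δ)) ∘ idx))) := by
        rw [finrank_span_eq_card hLI, ← hcard]
        exact hmax _ hw
      rw [Submodule.eq_of_le_of_finrank_le hle hfr]
      exact hvm
    have hmem := coeff_one_mem_span p v hLI0 hv0 hfin
    have h6 : (fun j => (p j).coeff 0) = e y0 ∘ idx := funext hp0
    rw [h6, hsp, ← hext, hv1] at hmem
    have := neg_mem hmem
    rwa [neg_neg] at this
  -- Nakayama
  have key2 : ∀ f : R[X], aeval y0 f = z → y0 * aeval y0 (derivative f) = 0 := by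
    intro f hf
    obtain ⟨g, hg⟩ : ∃ g, g = aeval y0 (derivative f) := ⟨_, rfl⟩
    rw [← hg]
    have hfd : FiniteDimensional F (Subalgebra.toSubmodule (ext R y0)) := by
      rw [hext]
      exact FiniteDimensional.span_of_finite F (Set.finite_range _)
    have hbot : m * Ideal.span {g * a} = ⊥ := by
      refine mul_eq_bot_of_finite m _ hnil hm2 (Subalgebra.toSubmodule (ext R y0)) ?_
      intro x hx
      rw [Ideal.mem_span_singleton'] at hx
      obtain ⟨c, rfl⟩ := hx
      have := key f hf c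
      rw [← hg] at this
      have h9 : c * (g * a) = g * (a * c) := by ring
      rw [h9]
      exact this
    have hga : g * a = 0 := by
      apply hann _ (m.mul_mem_left _ ha)
      intro y hy
      have : y * (g * a) ∈ m * Ideal.span {g * a} :=
        Ideal.mul_mem_mul hy (Ideal.mem_span_singleton_self _)
      rw [hbot] at this
      exact this
    rw [hy0]
    linear_combination c0 * hga
  -- degree trick
  have hz0 : z ∈ ext R y0 := hcon _ (m.mul_mem_right _ ha) hc0
  have hex : ∃ N : ℕ, ∃ f : R[X], f.natDegree = N ∧ aeval y0 f = z := by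
    obtain ⟨f, hf⟩ := mem_ext.1 hz0
    exact ⟨_, f, rfl, hf⟩
  obtain ⟨f, hfN, hf⟩ := Nat.find_spec hex
  have hmin : ∀ f' : R[X], aeval y0 f' = z → Nat.find hex ≤ f'.natDegree := fun f' hf' =>
    Nat.find_min' hex ⟨f', rfl, hf'⟩
  rcases Nat.eq_zero_or_pos (Nat.find hex) with h0 | hpos
  · rw [h0] at hfN
    have hC := Polynomial.eq_C_of_natDegree_eq_zero hfN
    rw [hC, aeval_C] at hf
    exact hzR (hf ▸ (f.coeff 0).2)
  · obtain ⟨k, hk⟩ : ∃ k, Nat.find hex = k + 1 := ⟨Nat.find hex - 1, by omega⟩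
    rw [hk] at hfN
    let u : R := algebraMap F R ((k : F) + 1)⁻¹
    let f1 : R[X] := f - C u * (X * derivative f)
    have hf1 : aeval y0 f1 = z := by
      simp only [f1, map_sub, map_mul, aeval_X, key2 f hf, mul_zero, sub_zero, hf]
    have hdeg : f1.natDegree ≤ k := by
      rw [Polynomial.natDegree_le_iff_coeff_eq_zero]
      intro i hi
      obtain ⟨j, rfl⟩ : ∃ j, i = j + 1 := ⟨i - 1, by omega⟩
      simp only [f1, coeff_sub, coeff_C_mul, coeff_X_mul, coeff_derivative]
      rcases Nat.lt_or_ge k j with hj | hj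
      · have : f.coeff (j + 1) = 0 := Polynomial.coeff_eq_zero_of_natDegree_lt (by omega)
        rw [this]; ring
      · have hjk : j = k := by omega
        subst hjk
        have h7 : u * ((j : R) + 1) = 1 := by
          have h8 : ((j : R) + 1) = algebraMap F R ((j : F) + 1) := by simp
          rw [h8, ← map_mul, inv_mul_cancel₀ (by exact_mod_cast Nat.succ_ne_zero j), map_one]
        linear_combination (-(f.coeff (j + 1))) * h7
    have := hmin f1 hf1
    omega

end H724.PSN
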